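import Pool.Agent.Helper26.HN.Stmts

/-! Row INZ of sheet HN (heavy nuclei). -/

set_option autoImplicit false

namespace Pool.Agent.Helper21.HN

open MeasureTheory Filter Pool.Agent.Helper95 Pool.Agent.Helper95.PW Pool.Agent.Helper95.LN
open Pool.Agent.Helper26.HN

theorem inz_nrc : Continuous nr := by
  unfold nr
  fun_prop

theorem inz_nr0 (y : R3) : 0 ≤ nr y := Real.sqrt_nonneg _

theorem inz_near_nn {M : ℕ} (X : Fin M → R3) (b : ℝ) (y : R3) : 0 ≤ near1 X b y := by
  unfold near1
  refine Finset.sum_nonneg fun j _ => ?_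
  split_ifs
  · exact one_div_nonneg.2 (inz_nr0 _)
  · exact le_refl 0

theorem inz_near_le {M : ℕ} (X : Fin M → R3) (b : ℝ) (y : R3) :
    near1 X b y ≤ pot X (fun _ => 1) y := by
  unfold near1 pot
  refine Finset.sum_le_sum fun j _ => ?_
  split_ifs
  · exact le_refl _
  · exact one_div_nonneg.2 (inz_nr0 _)

theorem inz_nbr_nn {M : ℕ} (X : Fin M → R3) (b : ℝ) (y : R3) : 0 ≤ nbr X b y := by
  unfold nbr
  refine Finset.sum_nonneg fun j _ => ?_
  split_ifs
  · exact zero_le_one
  · exact le_refl 0

theorem inz_nbr_le {M : ℕ} (X : Fin M → R3) (b : ℝ) (y : R3) : nbr X b y ≤ M := by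
  unfold nbr
  calc (∑ j : Fin M, if nr (y - X j) < b then (1 : ℝ) else 0) ≤ ∑ _j : Fin M, (1 : ℝ) := by
        refine Finset.sum_le_sum fun j _ => ?_
        split_ifs
        · exact le_refl _
        · exact zero_le_one
    _ = M := by simp

theorem inz_near_meas {M : ℕ} (X : Fin M → R3) (b : ℝ) : Measurable (near1 X b) := by
  unfold near1
  refine Finset.measurable_fun_sum _ fun j _ => ?_
  have h : Measurable fun y : R3 => nr (y - X j) :=
    (inz_nrc.comp (continuous_id.sub continuous_const)).measurable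
  exact Measurable.ite (measurableSet_lt h measurable_const) (measurable_const.div h)
    measurable_const

theorem inz_nbr_meas {M : ℕ} (X : Fin M → R3) (b : ℝ) : Measurable (nbr X b) := by
  unfold nbr
  refine Finset.measurable_fun_sum _ fun j _ => ?_
  have h : Measurable fun y : R3 => nr (y - X j) :=
    (inz_nrc.comp (continuous_id.sub continuous_const)).measurable
  exact Measurable.ite (measurableSet_lt h measurable_const) measurable_const measurable_const

theorem inz_sum_meas {n : ℕ} {w : R3 → ℝ} (hw : Measurable w) :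
    Measurable (fun x : Cf n => ∑ k, w (x k)) :=
  Finset.measurable_fun_sum _ fun k _ => hw.comp (measurable_pi_apply k)

theorem INZ (h1 : ST_INTM) : ST_INZ := by
  intro n M X b u hu
  have hus : ∀ s, Integrable (fun x : Cf n => u s x ^ 2) := by
    intro s
    have hc : Continuous (fun x : Cf n => u s x ^ 2) := (hu s).1.continuous.pow 2
    refine hc.integrable_of_hasCompactSupport ?_
    exact (hu s).2.comp_left (g := fun t : ℝ => t ^ 2) (by norm_num)
  constructor
  · intro s
    have h2 := (h1 n M X (fun _ => 1) (u s) (u s) (hu s).1 (hu s).2 (hu s).1 (hu s).2).1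
    refine h2.mono' ?_ (Eventually.of_forall fun x => ?_)
    · exact ((inz_sum_meas (inz_near_meas X b)).mul
        ((hu s).1.continuous.measurable.pow_const 2)).aestronglyMeasurable
    · have h3 : 0 ≤ ∑ k, near1 X b (x k) := Finset.sum_nonneg fun k _ => inz_near_nn X b (x k)
      have h4 : ∑ k, near1 X b (x k) ≤ ∑ k, pot X (fun _ => 1) (x k) :=
        Finset.sum_le_sum fun k _ => inz_near_le X b (x k)
      rw [Real.norm_of_nonneg (mul_nonneg h3 (sq_nonneg _)), ← pow_two]
      exact mul_le_mul_of_nonneg_right h4 (sq_nonneg _)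
  · intro s
    refine ((hus s).const_mul ((n : ℝ) * M)).mono' ?_ (Eventually.of_forall fun x => ?_)
    · exact ((inz_sum_meas (inz_nbr_meas X b)).mul
        ((hu s).1.continuous.measurable.pow_const 2)).aestronglyMeasurable
    · have h3 : 0 ≤ ∑ k, nbr X b (x k) := Finset.sum_nonneg fun k _ => inz_nbr_nn X b (x k)
      have h4 : ∑ k, nbr X b (x k) ≤ (n : ℝ) * M := by
        calc ∑ k, nbr X b (x k) ≤ ∑ _k : Fin n, (M : ℝ) :=
              Finset.sum_le_sum fun k _ => inz_nbr_le X b (x k)
          _ = (n : ℝ) * M := by simp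
      rw [Real.norm_of_nonneg (mul_nonneg h3 (sq_nonneg _))]
      exact mul_le_mul_of_nonneg_right h4 (sq_nonneg _)

end Pool.Agent.Helper21.HN
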